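import Pool.Agent.H96.BS3

set_option autoImplicit false
open Set Filter Topology

namespace Pool.Agent.Results.MP_3e1352_an.Yes

open Pool.Agent.H96.BS

theorem result :
    ∃ (X : Type) (_ : MetricSpace X) (_ : CompactSpace X) (_ : Nonempty X) (T S : X ≃ₜ X),
      (∀ x : X, Dense (range fun n : ℤ => (T ^ n) x)) ∧
      (∀ x : X, Dense (range fun n : ℤ => (S ^ n) x)) ∧
      ∀ x : X, ¬ ∃ n : ℕ → ℤ, Tendsto n atTop atTop ∧
        Tendsto (fun i => (T ^ n i) x) atTop (𝓝 x) ∧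
        Tendsto (fun i => (T ^ (2 * n i)) x) atTop (𝓝 x) ∧
        Tendsto (fun i => (S ^ (n i ^ 2)) x) atTop (𝓝 x) := by
  have : SecondCountableTopology XX := TopologicalSpace.Subtype.secondCountableTopology
    {x : ℤ → A | ∃ ξ ∈ OO ∅, ∀ i, x i = ξ (a ^ i)}
  obtain ⟨φ, t0, h⟩ := graph (A := fun j : ℕ => {x : XX | (x.1 (2 * j)).1 = (x.1 j).1})
    (B := fun j : ℕ => {x : XX | (x.1 (j ^ 2)).2 = (x.1 0).2}) wit
    (fun j => (isClopen_discrete {d : A × A | d.1.1 = d.2.1}).preimage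
      ((cont_letter _).prodMk (cont_letter _))) (fun N x hx j hj => (hx.2 j hj).1)
    (fun j => (isClopen_discrete {d : A × A | d.1.2 = d.2.2}).preimage
      ((cont_letter _).prodMk (cont_letter _))) (fun N x hx j hj => (hx.2 j hj).2)
  have hS : ∀ (n : ℤ) (x : XX), ((φ⁻¹ * TT 1 * φ⁻¹⁻¹ : XX ≃ₜ XX) ^ n : XX ≃ₜ XX) x =
      φ.symm (((TT 1) ^ n : XX ≃ₜ XX) (φ x)) :=
    fun n x => by rw [conj_zpow, inv_inv]; rfl
  refine ⟨XX, TopologicalSpace.metrizableSpaceMetric _, inferInstance, inferInstance,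
    TT 1, φ⁻¹ * TT 1 * φ⁻¹⁻¹, TT_min, fun x => ?_, ?_⟩
  · have := φ.symm.surjective.denseRange.dense_image φ.symm.continuous (TT_min (φ x))
    rw [← range_comp] at this
    simp only [hS]; exact this
  · rintro x ⟨n, h0, h1, h2, h3⟩
    have a1 := ((cont_letter 0).tendsto x).comp h1
    have a2 := ((cont_letter 0).tendsto x).comp h2
    have a3 := (((cont_letter 0).comp φ.continuous).tendsto x).comp h3
    rw [nhds_discrete, tendsto_pure] at a1 a2 a3
    obtain ⟨i, b0, b1, b2, b3⟩ := ((h0.eventually_gt_atTop t0).and (a1.and (a2.and a3))).exists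
    obtain ⟨j, hj⟩ := Int.eq_ofNat_of_zero_le (a := n i) (by omega)
    simp only [Function.comp, hS, Homeomorph.apply_symm_apply, TT_zpow, hj] at b0 b1 b2 b3
    refine h x j (by exact_mod_cast b0) ⟨?_, ?_⟩
    · have c1 : x.1 j = x.1 0 := by simpa [TT, sh] using b1
      have c2 : x.1 (2 * j) = x.1 0 := by simpa [TT, sh] using b2
      show (x.1 (2 * j)).1 = (x.1 j).1
      rw [c1, c2]
    · have c : (φ x).1 (j ^ 2) = (φ x).1 0 := by simpa [TT, sh] using b3
      exact congrArg Prod.snd c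

end Pool.Agent.Results.MP_3e1352_an.Yes
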